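import Pool.Agent.L7h86.RE.Big

/-!
# Project RE: assembly (helper86)
-/

set_option autoImplicit false

open Set Filter Topology Metric Function MeasureTheory
open scoped ContDiff RealInnerProductSpace

noncomputable section

namespace Pool.Agent.L7h86.RE

variable {n : ℕ}

theorem Isotopic.symm {W W' : Set (E n)} (h : Isotopic W W') : Isotopic W' W := by
  obtain ⟨Φ, Ψ, h1, h2, h3, h4, h5, ⟨R, h6⟩, h7⟩ := h
  refine ⟨Ψ, Φ, h2, h1, h4, h3, fun x => ?_, ⟨R, fun t x hx => ?_⟩, ?_⟩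
  · conv_lhs => rw [← h5 x]
    exact h3 0 x
  · conv_lhs => rw [← h6 t x hx]
    exact h3 t x
  · rw [← h7, image_image]
    simp only [h3, image_id']

theorem Isotopic.trans {W W' W'' : Set (E n)} (h : Isotopic W W') (h' : Isotopic W' W'') :
    Isotopic W W'' := by
  obtain ⟨Φ, Ψ, h1, h2, h3, h4, h5, ⟨R, h6⟩, h7⟩ := h
  obtain ⟨Φ', Ψ', h1', h2', h3', h4', h5', ⟨R', h6'⟩, h7'⟩ := h'
  refine ⟨fun q => Φ' (q.1, Φ q), fun q => Ψ (q.1, Ψ' q), h1'.comp (contDiff_fst.prodMk h1),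
    h2.comp (contDiff_fst.prodMk h2'), fun t x => ?_, fun t x => ?_, fun x => ?_,
    ⟨max R R', fun t x hx => ?_⟩, ?_⟩
  · simp only [h3', h3]
  · simp only [h4, h4']
  · simp only [h5, h5']
  · simp only [h6 t x ((le_max_left _ _).trans hx), h6' t x ((le_max_right _ _).trans hx)]
  · rw [← h7', ← h7, image_image]

theorem vv_zero (κ : ℝ) (w : E n → ℝ) (x : E n) : vv κ w (x, 0) = w x * ZZ n κ := by
  unfold vv ZZ
  simp only [zero_smul, add_zero]
  rw [integral_mul_const, mul_comm]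

theorem vv_add (hK : S_KER) {κ : ℝ} (h0 : 0 < κ) (h1 : κ < 1) {w w' : E n → ℝ}
    (hw : Continuous w) (hw' : Continuous w') (t : ℝ) (q : E n × ℝ) :
    vv κ (fun y => (1 - t) * w y + t * w' y) q = (1 - t) * vv κ w q + t * vv κ w' q := by
  obtain ⟨k0, -, -, k3, -⟩ := hK n κ h0 h1
  have hph : Continuous (ph κ : E n → ℝ) := k0.continuous
  have haff : Continuous (fun s : E n => q.1 + q.2 • s) :=
    continuous_const.add (continuous_const_smul q.2)
  have i1 : Integrable (fun s : E n => ph κ s * w (q.1 + q.2 • s)) :=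
    (hph.mul (hw.comp haff)).integrable_of_hasCompactSupport k3.mul_right
  have i2 : Integrable (fun s : E n => ph κ s * w' (q.1 + q.2 • s)) :=
    (hph.mul (hw'.comp haff)).integrable_of_hasCompactSupport k3.mul_right
  unfold vv
  rw [← integral_const_mul, ← integral_const_mul, ← integral_add (i1.const_mul _) (i2.const_mul _)]
  congr 1
  ext s
  ring

/-- far away the mollification is small -/
theorem far_small (hK : S_KER) {κ : ℝ} (h0 : 0 < κ) (h1 : κ < 1) {w : E n → ℝ}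
    (hw : Continuous w) {R r r₁ : ℝ} (hr : 0 ≤ r) (hr₁ : r ≤ r₁) (hfar : ∀ x, R ≤ ‖x‖ → w x = 0)
    {x : E n} (hv : 2 * vv κ w (x, r) = ZZ n κ) : ‖x‖ ≤ R + r₁ := by
  by_contra hc
  push Not at hc
  refine small_of hK h0 h1 (F := fun s => w (x + r • s))
    (hw.comp (continuous_const.add (continuous_const_smul r))) (fun s hs => ?_) hv
  rw [hfar]
  · norm_num
  · have h2 : ‖x‖ ≤ ‖x + r • s‖ + ‖r • s‖ := by
      have := norm_sub_le (x + r • s) (r • s)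
      rwa [add_sub_cancel_right] at this
    rw [norm_smul, Real.norm_of_nonneg hr] at h2
    nlinarith

/-- **The first stage**: from the region to the level set of the mollification at the scale `r₁`. -/
theorem stage_one (hK : S_KER) (hY : S_KEY) (hM : S_SMV) (hS : S_STP) (hI : S_ISO) {κ : ℝ}
    (h0 : 0 < κ) (h1 : κ < 1) {G : E n → ℝ} {ρ R : ℝ} (hD : Dm G ρ R) {δ r₀ : ℝ} (hδ : 0 ≤ δ)
    (hT : TwoSided G δ r₀) {k ε : ℝ} (hk : 1 ≤ k) (hε : 0 < ε) (hTub : Tub G ε k) {r₁ : ℝ}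
    (hr₁ : 0 < r₁) (hr : ∀ r, ρ / 2 < r → r ≤ r₁ → 2 * r + ε ≤ r₀ ∧
      4 * n * (δ * (2 * r + ε) + ε) < (1 - κ) * r) :
    Isotopic {x | G x ≤ 0} {x | 0 ≤ vv κ (ww k G) (x, r₁) - ZZ n κ / 2} := by
  have hk0 : 0 < k := by linarith
  have hw := ww_smooth (k := k) hD.smooth
  have hwfar : ∀ x, R ≤ ‖x‖ → ww k G x = 0 := fun x hx => ww_zero (by rw [hD.far x hx]; linarith)
  obtain ⟨-, -, -, -, k4, -⟩ := hK n κ h0 h1
  have hV : ContDiff ℝ ∞ (fun q : E n × ℝ => vv κ (ww k G) (q.1, q.2 * r₁) - ZZ n κ / 2) := by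
    refine ContDiff.sub ?_ contDiff_const
    exact (hM n κ _ h0 h1 hw).1.comp (contDiff_fst.prodMk (contDiff_snd.mul contDiff_const))
  have h := hI n (fun q => vv κ (ww k G) (q.1, q.2 * r₁) - ZZ n κ / 2) (R + r₁) hV ?_
  · have e1 : {x : E n | 0 ≤ vv κ (ww k G) (x, (0 : ℝ) * r₁) - ZZ n κ / 2} = {x | G x ≤ 0} := by
      ext x
      rw [mem_ofPred_eq, mem_ofPred_eq, zero_mul, vv_zero, ← ww_ge_half hS hk0]
      constructor
      · intro h2
        by_contra h3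
        push Not at h3
        nlinarith
      · intro h2
        nlinarith
    simp only [one_mul] at h
    rwa [e1] at h
  · intro x t ht0 ht1 hz
    have hz' : 2 * vv κ (ww k G) (x, t * r₁) = ZZ n κ := by linarith
    have hr0 : 0 ≤ t * r₁ := mul_nonneg ht0 hr₁.le
    have hr1 : t * r₁ ≤ r₁ := by nlinarith
    refine ⟨far_small hK h0 h1 hw.continuous hr0 hr1 hwfar hz', ?_⟩
    have hex : ∃ ν : E n, fderiv ℝ (fun y => vv κ (ww k G) (y, t * r₁)) x ν ≠ 0 := by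
      by_cases hc : t * r₁ ≤ ρ / 2
      · exact small_scale hK hM hS h0 h1 hD hk0 hr0 (by linarith) hz'
      · push Not at hc
        obtain ⟨h2, h3⟩ := hr _ hc hr1
        exact large_scale hK hY hM hS h0 h1 hD.smooth hδ hT hk0 hε hTub
          (by have := hD.ρpos; linarith) h2 h3 hz'
    obtain ⟨ν, hν⟩ := hex
    refine ⟨ν, ?_⟩
    rw [fderiv_sub_const]
    exact hν

/-- **The last stage.** -/
theorem stage_two (hK : S_KER) (hY : S_KEY) (hM : S_SMV) (hI : S_ISO) {κ : ℝ}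
    (h0 : 0 < κ) (h1 : κ < 1) {G G' : E n → ℝ} {ρ R ρ' R' : ℝ} (hD : Dm G ρ R) (hD' : Dm G' ρ' R')
    {δ r₀ : ℝ} (hδ : 0 ≤ δ) (hT : TwoSided G δ r₀) {k ε η : ℝ} (hk : 1 ≤ k) (hε : 0 < ε)
    (hη : 0 ≤ η) (hTub : Tub G ε k) (hTub' : Tub G' ε k)
    (hcl : ∀ y, (∀ m, G m = 0 → η < ‖y - m‖) → (G y ≤ 0 ↔ G' y ≤ 0)) {r : ℝ} (hr : 0 < r)
    (hr' : 2 * r + 2 * (η + ε) ≤ r₀)
    (hβ : 4 * n * (δ * (2 * r + 2 * (η + ε)) + (η + ε)) < (1 - κ) * r) :
    Isotopic {x | 0 ≤ vv κ (ww k G) (x, r) - ZZ n κ / 2}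
      {x | 0 ≤ vv κ (ww k G') (x, r) - ZZ n κ / 2} := by
  have hw := ww_smooth (k := k) hD.smooth
  have hw' := ww_smooth (k := k) hD'.smooth
  have hwfar : ∀ x, R ≤ ‖x‖ → ww k G x = 0 := fun x hx => ww_zero (by rw [hD.far x hx]; linarith)
  have hwfar' : ∀ x, R' ≤ ‖x‖ → ww k G' x = 0 :=
    fun x hx => ww_zero (by rw [hD'.far x hx]; linarith)
  have hV : ContDiff ℝ ∞ (fun q : E n × ℝ => (1 - q.2) * vv κ (ww k G) (q.1, r) +
      q.2 * vv κ (ww k G') (q.1, r) - ZZ n κ / 2) := by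
    refine ContDiff.sub ?_ contDiff_const
    exact ((contDiff_const.sub contDiff_snd).mul
      ((hM n κ _ h0 h1 hw).1.comp (contDiff_fst.prodMk contDiff_const))).add
      (contDiff_snd.mul ((hM n κ _ h0 h1 hw').1.comp (contDiff_fst.prodMk contDiff_const)))
  have h := hI n (fun q => (1 - q.2) * vv κ (ww k G) (q.1, r) +
      q.2 * vv κ (ww k G') (q.1, r) - ZZ n κ / 2) (max R R' + r) hV ?_
  · simp only [sub_zero, one_mul, zero_mul, add_zero, sub_self, zero_add] at h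
    exact h
  · intro x t ht0 ht1 hz
    have e : ∀ y, vv κ (fun y => (1 - t) * ww k G y + t * ww k G' y) (y, r) =
        (1 - t) * vv κ (ww k G) (y, r) + t * vv κ (ww k G') (y, r) := fun y =>
      vv_add hK h0 h1 hw.continuous hw'.continuous t (y, r)
    have hz' : 2 * vv κ (fun y => (1 - t) * ww k G y + t * ww k G' y) (x, r) = ZZ n κ := by
      rw [e]
      linarith
    refine ⟨far_small hK h0 h1 (w := fun y => (1 - t) * ww k G y + t * ww k G' y)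
      ((continuous_const.mul hw.continuous).add (continuous_const.mul hw'.continuous)) hr.le le_rfl
      (fun y hy => ?_) hz', ?_⟩
    · rw [hwfar y ((le_max_left _ _).trans hy), hwfar' y ((le_max_right _ _).trans hy)]
      ring
    · obtain ⟨ν, hν⟩ := last_scale hK hY hM h0 h1 hD hD' hδ hT hε hη hTub hTub' hcl hr hr' hβ
        ht0 ht1 hz'
      refine ⟨ν, ?_⟩
      rw [fderiv_sub_const]
      simp only [← e]
      exact hν

/-- **Main theorem.** -/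
theorem main (hK : S_KER) (hY : S_KEY) (hM : S_SMV) (hS : S_STP) (hI : S_ISO) (hB : S_BET)
    (hO : S_DOM) (n : ℕ) (hn : 3 ≤ n) (δ η r₀ : ℝ) (hδ : 0 ≤ δ) (hη : 0 ≤ η) (hr₀ : 0 < r₀)
    (hsum : 9 * n * (δ + η) ≤ 1) (g g' : E n → ℝ) (hg : Defines g) (hg' : Defines g')
    (hf : Flat δ r₀ {x | g x = 0}) (hf' : Flat δ r₀ {x | g' x = 0})
    (hcl : ∀ y, (g y ≤ 0 ↔ ¬ g' y ≤ 0) → ∃ m, g m = 0 ∧ ‖y - m‖ ≤ η * r₀) :
    Isotopic {x | g x ≤ 0} {x | g' x ≤ 0} := by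
  have hn' : (3 : ℝ) ≤ n := by exact_mod_cast hn
  have hδ' : δ ≤ 1 / 27 := by nlinarith
  have hη' : η ≤ 1 / 27 := by nlinarith
  obtain ⟨-, G, hG, ⟨R, hR⟩, hs, ⟨ρ, hρ, hloc⟩, htub⟩ := hO n g hg
  obtain ⟨-, G', hG', ⟨R', hR'⟩, hs', ⟨ρ', hρ', hloc'⟩, htub'⟩ := hO n g' hg'
  have hD : Dm G ρ R := ⟨hG, hR, hρ, hloc⟩
  have hD' : Dm G' ρ' R' := ⟨hG', hR', hρ', hloc'⟩
  have hpos : ∀ x, (0 < G x ↔ 0 < g x) := by
    intro x
    have h1 := (hs x).1
    have h2 := (hs x).2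
    constructor
    · intro h
      rcases lt_trichotomy (g x) 0 with h3 | h3 | h3
      · linarith [h1.2 h3]
      · linarith [h2.2 h3]
      · exact h3
    · intro h
      rcases lt_trichotomy (G x) 0 with h3 | h3 | h3
      · linarith [h1.1 h3]
      · linarith [h2.1 h3]
      · exact h3
  have hpos' : ∀ x, (0 < G' x ↔ 0 < g' x) := by
    intro x
    have h1 := (hs' x).1
    have h2 := (hs' x).2
    constructor
    · intro h
      rcases lt_trichotomy (g' x) 0 with h3 | h3 | h3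
      · linarith [h1.2 h3]
      · linarith [h2.2 h3]
      · exact h3
    · intro h
      rcases lt_trichotomy (G' x) 0 with h3 | h3 | h3
      · linarith [h1.1 h3]
      · linarith [h2.1 h3]
      · exact h3
  have hle : ∀ x, (G x ≤ 0 ↔ g x ≤ 0) := fun x => by
    rw [← not_lt, ← not_lt, hpos]
  have hle' : ∀ x, (G' x ≤ 0 ↔ g' x ≤ 0) := fun x => by
    rw [← not_lt, ← not_lt, hpos']
  have hT : TwoSided G δ r₀ := by
    intro x hx r hr hrr
    obtain ⟨ν, hν, h⟩ := hB n g δ r₀ hg hδ (by linarith) hf x ((hs x).2.1 hx) r hr hrr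
    exact ⟨ν, hν, fun y hy => ⟨fun h2 => (hs y).1.2 ((h y hy).1 h2),
      fun h2 => (hpos y).2 ((h y hy).2 h2)⟩⟩
  have hT' : TwoSided G' δ r₀ := by
    intro x hx r hr hrr
    obtain ⟨ν, hν, h⟩ := hB n g' δ r₀ hg' hδ (by linarith) hf' x ((hs' x).2.1 hx) r hr hrr
    exact ⟨ν, hν, fun y hy => ⟨fun h2 => (hs' y).1.2 ((h y hy).1 h2),
      fun h2 => (hpos' y).2 ((h y hy).2 h2)⟩⟩
  -- the parameters
  obtain ⟨σ, hσ, hσ1, hσ2, hσ3⟩ : ∃ σ : ℝ, 0 < σ ∧ σ ≤ ρ ∧ σ ≤ ρ' ∧ σ ≤ r₀ :=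
    ⟨min (min ρ ρ') r₀, by positivity, (min_le_left _ _).trans (min_le_left _ _),
      (min_le_left _ _).trans (min_le_right _ _), min_le_right _ _⟩
  obtain ⟨ε, hε⟩ : ∃ ε : ℝ, n * ε = σ / 1000 := ⟨σ / 1000 / n, by field_simp⟩
  have hε0 : 0 < ε := by
    by_contra hc
    push Not at hc
    nlinarith
  have hεs : 3 * ε ≤ σ / 1000 := by nlinarith
  obtain ⟨k₁, hk₁, htub1⟩ := htub ε hε0
  obtain ⟨k₂, hk₂, htub2⟩ := htub' ε hε0
  obtain ⟨k, hk1, hk2, hk3⟩ : ∃ k : ℝ, k₁ ≤ k ∧ k₂ ≤ k ∧ 1 ≤ k :=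
    ⟨max (max k₁ k₂) 1, (le_max_left _ _).trans (le_max_left _ _),
      (le_max_right _ _).trans (le_max_left _ _), le_max_right _ _⟩
  have hTub : Tub G ε k := Tub.mono htub1 hk1
  have hTub' : Tub G' ε k := Tub.mono htub2 hk2
  obtain ⟨r₁, hr₁⟩ : ∃ r₁ : ℝ, 2 * r₁ + 2 * (η * r₀ + ε) = r₀ :=
    ⟨(r₀ - 2 * (η * r₀ + ε)) / 2, by ring⟩
  have hηr : η * r₀ ≤ 1 / 27 * r₀ := mul_le_mul_of_nonneg_right hη' hr₀.le
  have hηr0 : 0 ≤ η * r₀ := by positivity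
  have hr₁0 : 0 < r₁ := by linarith
  have hstage : ∀ ρ : ℝ, σ ≤ ρ → ∀ r, ρ / 2 < r → r ≤ r₁ → 2 * r + ε ≤ r₀ ∧
      4 * n * (δ * (2 * r + ε) + ε) < (1 - 1 / 100) * r := by
    intro ρ hρ r h1 h2
    refine ⟨by linarith, ?_⟩
    have hr : 0 < r := by linarith
    have e1 : 4 * (n : ℝ) * (δ * (2 * r + ε) + ε) = 8 * (n * δ) * r + 4 * (n * ε) * (1 + δ) := by
      ring
    have e2 : 9 * (n * δ) ≤ 1 := by nlinarith
    have e3 : 8 * (n * δ) * r ≤ 8 / 9 * r := by nlinarith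
    rw [e1, hε]
    have e4 : 4 * (σ / 1000) * (1 + δ) ≤ 4 * (σ / 1000) * 2 := by
      refine mul_le_mul_of_nonneg_left (by linarith) (by positivity)
    linarith
  have s1 := stage_one hK hY hM hS hI (κ := 1 / 100) (by norm_num) (by norm_num) hD hδ hT hk3 hε0
    hTub hr₁0 (hstage ρ hσ1)
  have s3 := stage_one hK hY hM hS hI (κ := 1 / 100) (by norm_num) (by norm_num) hD' hδ hT' hk3 hε0
    hTub' hr₁0 (hstage ρ' hσ2)
  have s2 := stage_two hK hY hM hI (κ := 1 / 100) (by norm_num) (by norm_num) hD hD' hδ hT hk3 hε0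
    hηr0 hTub hTub' (fun y hy => by
      rw [hle, hle']
      by_contra hc
      have hc' : g y ≤ 0 ↔ ¬ g' y ≤ 0 := by
        by_cases h1 : g y ≤ 0 <;> by_cases h2 : g' y ≤ 0 <;> simp_all
      obtain ⟨m, hm, hm'⟩ := hcl y hc'
      exact absurd (hy m ((hs m).2.2 hm)) (not_lt.2 hm')) hr₁0 hr₁.le (by
      rw [hr₁]
      have e1 : 4 * (n : ℝ) * (δ * r₀ + (η * r₀ + ε)) =
          4 / 9 * (9 * n * (δ + η)) * r₀ + 4 * (n * ε) := by ring
      have e2 : 4 / 9 * (9 * n * (δ + η)) * r₀ ≤ 4 / 9 * 1 * r₀ := by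
        refine mul_le_mul_of_nonneg_right ?_ hr₀.le
        exact mul_le_mul_of_nonneg_left hsum (by norm_num)
      rw [e1, hε]
      linarith)
  have t1 : {x | G x ≤ 0} = {x | g x ≤ 0} := by
    ext x
    exact hle x
  have t2 : {x | G' x ≤ 0} = {x | g' x ≤ 0} := by
    ext x
    exact hle' x
  rw [← t1, ← t2]
  exact (s1.trans s2).trans s3.symm

end Pool.Agent.L7h86.RE
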