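import Pool.Agent.L7h86.RE.Loc

/-!
# Project RE: regularity of the levels at large scales (helper86)
-/

set_option autoImplicit false

open Set Filter Topology Metric Function MeasureTheory
open scoped ContDiff RealInnerProductSpace

noncomputable section

namespace Pool.Agent.L7h86.RE

variable {n : ℕ}

/-- at every zero and at every scale up to `r₀` the region is a half space up to a slab -/
def TwoSided (G : E n → ℝ) (δ r₀ : ℝ) : Prop :=
  ∀ x, G x = 0 → ∀ r : ℝ, 0 < r → r ≤ r₀ → ∃ ν : E n, ‖ν‖ = 1 ∧ ∀ y, ‖y - x‖ ≤ r →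
    (⟪ν, y - x⟫ < -(δ * r) → G y < 0) ∧ (δ * r < ⟪ν, y - x⟫ → 0 < G y)

theorem key_apply (hY : S_KEY) (hM : S_SMV) {κ : ℝ} (h0 : 0 < κ) (h1 : κ < 1) {w : E n → ℝ}
    (hw : ContDiff ℝ ∞ w) (hw0 : ∀ y, 0 ≤ w y ∧ w y ≤ 1) {x m ν : E n} {r c : ℝ} (hr : 0 < r)
    (hν : ‖ν‖ = 1) (hc : 0 ≤ c) (hc' : 4 * n * c < (1 - κ) * r)
    (hl : ∀ y, ‖y - x‖ ≤ r → ⟪ν, y - m⟫ ≤ -c → w y = 1)
    (hu : ∀ y, ‖y - x‖ ≤ r → c ≤ ⟪ν, y - m⟫ → w y = 0)
    (hv : 2 * vv κ w (x, r) = ZZ n κ) : ∃ ν : E n, fderiv ℝ (fun y => vv κ w (y, r)) x ν ≠ 0 := by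
  refine ⟨ν, fun he => ?_⟩
  have haff : Continuous (fun s : E n => x + r • s) :=
    continuous_const.add (continuous_const_smul r)
  have hin : ∀ s : E n, ⟪ν, x + r • s - m⟫ = ⟪ν, x - m⟫ + r * ⟪ν, s⟫ := by
    intro s
    rw [show x + r • s - m = (x - m) + r • s by abel, inner_add_right, inner_smul_right]
  have hno : ∀ s : E n, ‖s‖ ≤ 1 → ‖x + r • s - x‖ ≤ r := by
    intro s hs
    rw [add_sub_cancel_left, norm_smul, Real.norm_of_nonneg hr.le]
    nlinarith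
  have hkey := hY n κ (c / r) (⟪ν, x - m⟫ / r) ν (fun s => w (x + r • s)) h0 h1 hν
    (div_nonneg hc hr.le) ?_ (hw.continuous.comp haff) (fun s => hw0 _) (fun s hs hs' => ?_)
    (fun s hs hs' => ?_) hv
  · have h2 := (hM n κ w h0 h1 hw).2.2 x ν r
    rw [he, mul_zero] at h2
    rw [← h2] at hkey
    exact lt_irrefl _ hkey
  · rw [← mul_div_assoc, div_lt_iff₀ hr]
    exact hc'
  · refine hl _ (hno s hs) ?_
    rw [hin]
    have h3 : r * ⟪ν, s⟫ ≤ r * (-(⟪ν, x - m⟫ / r) - c / r) := mul_le_mul_of_nonneg_left hs' hr.le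
    have h4 : r * (-(⟪ν, x - m⟫ / r) - c / r) = -⟪ν, x - m⟫ - c := by
      field_simp
    linarith
  · refine hu _ (hno s hs) ?_
    rw [hin]
    have h3 : r * (-(⟪ν, x - m⟫ / r) + c / r) ≤ r * ⟪ν, s⟫ := mul_le_mul_of_nonneg_left hs' hr.le
    have h4 : r * (-(⟪ν, x - m⟫ / r) + c / r) = -⟪ν, x - m⟫ + c := by
      field_simp
    linarith

theorem inner_close {ν a b : E n} (hν : ‖ν‖ = 1) (x : E n) :
    |⟪ν, a - x⟫ - ⟪ν, b - x⟫| ≤ ‖a - b‖ := by
  rw [← inner_sub_right, sub_sub_sub_cancel_right]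
  calc |⟪ν, a - b⟫| ≤ ‖ν‖ * ‖a - b‖ := abs_real_inner_le_norm _ _
    _ = ‖a - b‖ := by rw [hν, one_mul]

/-- the tubular condition at scale `ε` -/
def Tub (G : E n → ℝ) (ε k : ℝ) : Prop := ∀ y, (∀ m, G m = 0 → ε ≤ ‖y - m‖) → 1 ≤ k * |G y|

theorem Tub.mono {G : E n → ℝ} {ε k k' : ℝ} (h : Tub G ε k) (hk : k ≤ k') : Tub G ε k' :=
  fun y hy => (h y hy).trans (mul_le_mul_of_nonneg_right hk (abs_nonneg _))

theorem Tub.one {G : E n → ℝ} {ε k : ℝ} (h : Tub G ε k) {y : E n}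
    (hy : ∀ m, G m = 0 → ε ≤ ‖y - m‖) (hG : G y < 0) : ww k G y = 1 := by
  refine ww_one ?_
  have := h y hy
  rw [abs_of_neg hG] at this
  linarith

theorem Tub.zero {G : E n → ℝ} {ε k : ℝ} (h : Tub G ε k) {y : E n}
    (hy : ∀ m, G m = 0 → ε ≤ ‖y - m‖) (hG : 0 < G y) : ww k G y = 0 := by
  refine ww_zero ?_
  have := h y hy
  rwa [abs_of_pos hG] at this

section slab

variable {G : E n → ℝ} {ν x₀ : E n} {δ Rr : ℝ}

theorem slab_neg (hν : ‖ν‖ = 1)
    (h : ∀ y, ‖y - x₀‖ ≤ Rr → (⟪ν, y - x₀⟫ < -(δ * Rr) → G y < 0) ∧ (δ * Rr < ⟪ν, y - x₀⟫ → 0 < G y))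
    {y : E n} {ε : ℝ} (hy : ‖y - x₀‖ + ε ≤ Rr) (hy' : ⟪ν, y - x₀⟫ ≤ -(δ * Rr + ε)) {z : E n}
    (hz : ‖z - y‖ < ε) : G z < 0 := by
  refine (h z ?_).1 ?_
  · have h1 : ‖z - x₀‖ ≤ ‖z - y‖ + ‖y - x₀‖ := norm_sub_le_norm_sub_add_norm_sub z y x₀
    linarith
  · have h2 := inner_close (a := z) (b := y) hν x₀
    have h3 := le_abs_self (⟪ν, z - x₀⟫ - ⟪ν, y - x₀⟫)
    linarith

theorem slab_pos (hν : ‖ν‖ = 1)
    (h : ∀ y, ‖y - x₀‖ ≤ Rr → (⟪ν, y - x₀⟫ < -(δ * Rr) → G y < 0) ∧ (δ * Rr < ⟪ν, y - x₀⟫ → 0 < G y))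
    {y : E n} {ε : ℝ} (hy : ‖y - x₀‖ + ε ≤ Rr) (hy' : δ * Rr + ε ≤ ⟪ν, y - x₀⟫) {z : E n}
    (hz : ‖z - y‖ < ε) : 0 < G z := by
  refine (h z ?_).2 ?_
  · have h1 : ‖z - x₀‖ ≤ ‖z - y‖ + ‖y - x₀‖ := norm_sub_le_norm_sub_add_norm_sub z y x₀
    linarith
  · have h2 := inner_close (a := z) (b := y) hν x₀
    have h3 := neg_abs_le (⟪ν, z - x₀⟫ - ⟪ν, y - x₀⟫)
    linarith

end slab

/-- no zeros near `y` if `G` is negative near `y` -/
theorem far_of_neg {G : E n → ℝ} {y : E n} {ε : ℝ} (h : ∀ z, ‖z - y‖ < ε → G z ≠ 0) :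
    ∀ m, G m = 0 → ε ≤ ‖y - m‖ := by
  intro m hm
  by_contra hc
  rw [norm_sub_rev] at hc
  exact h m (not_le.1 hc) hm

/-- a zero in the ball -/
theorem exists_zero (hK : S_KER) (hS : S_STP) {κ : ℝ} (h0 : 0 < κ) (h1 : κ < 1) {G : E n → ℝ}
    (hG : ContDiff ℝ ∞ G) {k : ℝ} (hk : 0 < k) {x : E n} {r : ℝ}
    (hv : 2 * vv κ (ww k G) (x, r) = ZZ n κ) : ∃ s₀ : E n, ‖s₀‖ < 1 ∧ G (x + r • s₀) = 0 := by
  have haff : Continuous (fun s : E n => x + r • s) :=
    continuous_const.add (continuous_const_smul r)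
  have hw := ww_smooth (k := k) hG
  by_contra hc
  push Not at hc
  rcases sign_const (G := fun s => G (x + r • s)) (hG.continuous.comp haff)
    (S := ball 0 1) (convex_ball _ _).isPreconnected
    (fun s hs => hc s (mem_ball_zero_iff.1 hs)) with h | h
  · exact big_of hK h0 h1 (F := fun s => ww k G (x + r • s)) (hw.continuous.comp haff)
      (fun s hs => ww_neg hS hk (h s (mem_ball_zero_iff.2 hs))) hv
  · exact small_of hK h0 h1 (F := fun s => ww k G (x + r • s)) (hw.continuous.comp haff)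
      (fun s hs => ww_pos hS hk (h s (mem_ball_zero_iff.2 hs))) hv

/-- **Large scales.** -/
theorem large_scale (hK : S_KER) (hY : S_KEY) (hM : S_SMV) (hS : S_STP) {κ : ℝ} (h0 : 0 < κ)
    (h1 : κ < 1) {G : E n → ℝ} (hG : ContDiff ℝ ∞ G) {δ r₀ : ℝ} (hδ : 0 ≤ δ) (hT : TwoSided G δ r₀)
    {k ε : ℝ} (hk : 0 < k) (hε : 0 < ε) (hTub : Tub G ε k) {x : E n} {r : ℝ} (hr : 0 < r)
    (hr' : 2 * r + ε ≤ r₀) (hβ : 4 * n * (δ * (2 * r + ε) + ε) < (1 - κ) * r)
    (hv : 2 * vv κ (ww k G) (x, r) = ZZ n κ) :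
    ∃ ν : E n, fderiv ℝ (fun y => vv κ (ww k G) (y, r)) x ν ≠ 0 := by
  obtain ⟨s₀, hs₀, hG₀⟩ := exists_zero hK hS h0 h1 hG hk hv
  have hxm : ‖x - (x + r • s₀)‖ ≤ r := by
    rw [sub_add_cancel_left, norm_neg, norm_smul, Real.norm_of_nonneg hr.le]
    nlinarith
  obtain ⟨ν, hν, hν'⟩ := hT _ hG₀ (2 * r + ε) (by linarith) hr'
  have hyb : ∀ y, ‖y - x‖ ≤ r → ‖y - (x + r • s₀)‖ + ε ≤ 2 * r + ε := by
    intro y hy
    have := norm_sub_le_norm_sub_add_norm_sub y x (x + r • s₀)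
    linarith
  refine key_apply (m := x + r • s₀) (c := δ * (2 * r + ε) + ε) hY hM h0 h1 (ww_smooth hG)
    (fun y => ⟨ww_nonneg _ _ _, ww_le_one _ _ _⟩) hr hν (by positivity) hβ (fun y hy hy' => ?_)
    (fun y hy hy' => ?_) hv
  · have hz : ∀ z, ‖z - y‖ < ε → G z < 0 := fun z hz => slab_neg hν hν' (hyb y hy) hy' hz
    refine hTub.one (far_of_neg fun z h => (hz z h).ne) (hz y ?_)
    rw [sub_self, norm_zero]
    exact hε
  · have hz : ∀ z, ‖z - y‖ < ε → 0 < G z := fun z hz => slab_pos hν hν' (hyb y hy) hy' hz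
    refine hTub.zero (far_of_neg fun z h => (hz z h).ne') (hz y ?_)
    rw [sub_self, norm_zero]
    exact hε

/-- near a zero there are points where the function is positive -/
theorem exists_pos_near {G : E n → ℝ} {ρ R : ℝ} (hD : Dm G ρ R) {m : E n} (hm : G m = 0) {ε : ℝ}
    (hε : 0 < ε) : ∃ z, ‖z - m‖ < ε ∧ 0 < G z := by
  obtain ⟨N, hN⟩ := hD.loc m hm
  have h1 : 0 < fderiv ℝ G m N := hN m (by rw [sub_self, norm_zero]; exact hD.ρpos.le)
  have h2 : HasDerivAt (fun t : ℝ => G (m + t • N)) (fderiv ℝ G m N) 0 := by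
    have h3 : HasFDerivAt G (fderiv ℝ G m) (m + (0 : ℝ) • N) := by
      rw [zero_smul, add_zero]
      exact (hD.smooth.differentiable (by simp) m).hasFDerivAt
    have h4 : HasDerivAt (fun t : ℝ => m + t • N) N 0 := by
      simpa using ((hasDerivAt_id (0 : ℝ)).smul_const N).const_add m
    exact h3.comp_hasDerivAt 0 h4
  have h5 : ∀ᶠ t in 𝓝[>] (0 : ℝ), 0 < G (m + t • N) := by
    have h6 := (hasDerivAt_iff_tendsto_slope.1 h2).mono_left
      (nhdsWithin_mono (0 : ℝ) (fun t (ht : 0 < t) => ne_of_gt ht))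
    have h7 := h6.eventually (lt_mem_nhds h1)
    filter_upwards [h7, self_mem_nhdsWithin] with t ht ht'
    have h8 : 0 < t := ht'
    rw [slope_def_field, zero_smul, add_zero, hm, sub_zero, sub_zero] at ht
    have := mul_pos ht h8
    rwa [div_mul_cancel₀ _ h8.ne'] at this
  have h6 : ∀ᶠ t in 𝓝[>] (0 : ℝ), ‖m + t • N - m‖ < ε := by
    have : Continuous fun t : ℝ => ‖m + t • N - m‖ :=
      ((continuous_const.add (continuous_id.smul continuous_const)).sub continuous_const).norm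
    have h7 := this.tendsto 0
    simp only [zero_smul, add_zero, sub_self, norm_zero] at h7
    exact (h7.mono_left nhdsWithin_le_nhds).eventually (gt_mem_nhds hε)
  obtain ⟨t, ht1, ht2⟩ := (h5.and h6).exists
  exact ⟨_, ht2, ht1⟩

/-- **The last scale.** -/
theorem last_scale (hK : S_KER) (hY : S_KEY) (hM : S_SMV) {κ : ℝ} (h0 : 0 < κ)
    (h1 : κ < 1) {G G' : E n → ℝ} {ρ R ρ' R' : ℝ} (hD : Dm G ρ R) (hD' : Dm G' ρ' R') {δ r₀ : ℝ}
    (hδ : 0 ≤ δ) (hT : TwoSided G δ r₀) {k ε η : ℝ} (hε : 0 < ε) (hη : 0 ≤ η)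
    (hTub : Tub G ε k) (hTub' : Tub G' ε k)
    (hcl : ∀ y, (∀ m, G m = 0 → η < ‖y - m‖) → (G y ≤ 0 ↔ G' y ≤ 0)) {x : E n} {r : ℝ} (hr : 0 < r)
    (hr' : 2 * r + 2 * (η + ε) ≤ r₀)
    (hβ : 4 * n * (δ * (2 * r + 2 * (η + ε)) + (η + ε)) < (1 - κ) * r) {t : ℝ} (ht0 : 0 ≤ t)
    (ht1 : t ≤ 1)
    (hv : 2 * vv κ (fun y => (1 - t) * ww k G y + t * ww k G' y) (x, r) = ZZ n κ) :
    ∃ ν : E n, fderiv ℝ
      (fun y => vv κ (fun y => (1 - t) * ww k G y + t * ww k G' y) (y, r)) x ν ≠ 0 := by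
  have hw := ww_smooth (k := k) hD.smooth
  have hw' := ww_smooth (k := k) hD'.smooth
  have hws : ContDiff ℝ ∞ (fun y => (1 - t) * ww k G y + t * ww k G' y) :=
    (contDiff_const.mul hw).add (contDiff_const.mul hw')
  have haff : Continuous (fun s : E n => x + r • s) :=
    continuous_const.add (continuous_const_smul r)
  have hno : ∀ s : E n, ‖s‖ < 1 → ‖x + r • s - x‖ ≤ r := by
    intro s hs
    rw [add_sub_cancel_left, norm_smul, Real.norm_of_nonneg hr.le]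
    nlinarith
  -- if both functions are negative near `y`
  have hneg : ∀ y, (∀ z, ‖z - y‖ < ε → G z < 0 ∧ ∀ m, G m = 0 → η < ‖z - m‖) →
      (1 - t) * ww k G y + t * ww k G' y = 1 := by
    intro y hy
    have e1 : ww k G y = 1 := hTub.one (far_of_neg fun z h => (hy z h).1.ne)
      (hy y (by rw [sub_self, norm_zero]; exact hε)).1
    have h2 : ∀ z, ‖z - y‖ < ε → G' z ≤ 0 := fun z hz => (hcl z (hy z hz).2).1 (hy z hz).1.le
    have h3 : ∀ z, ‖z - y‖ < ε → G' z ≠ 0 := by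
      intro z hz hz0
      obtain ⟨z', hz', hz''⟩ := exists_pos_near hD' hz0 (ε := ε - ‖z - y‖) (by linarith)
      have h4 : ‖z' - y‖ < ε := by
        have := norm_sub_le_norm_sub_add_norm_sub z' z y
        linarith
      exact absurd (h2 z' h4) (not_le.2 hz'')
    have h5 : ‖y - y‖ < ε := by rw [sub_self, norm_zero]; exact hε
    have e2 : ww k G' y = 1 := hTub'.one (far_of_neg h3) (lt_of_le_of_ne (h2 y h5) (h3 y h5))
    rw [e1, e2]
    ring
  have hpos : ∀ y, (∀ z, ‖z - y‖ < ε → 0 < G z ∧ ∀ m, G m = 0 → η < ‖z - m‖) →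
      (1 - t) * ww k G y + t * ww k G' y = 0 := by
    intro y hy
    have e1 : ww k G y = 0 := hTub.zero (far_of_neg fun z h => (hy z h).1.ne')
      (hy y (by rw [sub_self, norm_zero]; exact hε)).1
    have h2 : ∀ z, ‖z - y‖ < ε → 0 < G' z := fun z hz => by
      by_contra hc
      exact absurd ((hcl z (hy z hz).2).2 (not_lt.1 hc)) (not_le.2 (hy z hz).1)
    have h5 : ‖y - y‖ < ε := by rw [sub_self, norm_zero]; exact hε
    have e2 : ww k G' y = 0 := hTub'.zero (far_of_neg fun z hz => (h2 z hz).ne') (h2 y h5)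
    rw [e1, e2]
    ring
  -- a zero near `x`
  obtain ⟨m, hm, hxm⟩ : ∃ m, G m = 0 ∧ ‖x - m‖ ≤ r + (η + ε) := by
    by_contra hc
    push Not at hc
    have hfar : ∀ z, ‖z - x‖ ≤ r + ε → ∀ m, G m = 0 → η < ‖z - m‖ := by
      intro z hz m hm
      have h2 := hc m hm
      have h3 := norm_sub_le_norm_sub_add_norm_sub x z m
      rw [norm_sub_rev x z] at h3
      linarith
    have hz0 : ∀ z ∈ closedBall x (r + ε), G z ≠ 0 := by
      intro z hz hz0
      have h2 := hfar z (mem_closedBall_iff_norm.1 hz) z hz0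
      rw [sub_self, norm_zero] at h2
      linarith
    have hball : ∀ s : E n, ‖s‖ < 1 → ∀ z, ‖z - (x + r • s)‖ < ε → ‖z - x‖ ≤ r + ε := by
      intro s hs z hz
      have h2 := norm_sub_le_norm_sub_add_norm_sub z (x + r • s) x
      have h3 := hno s hs
      linarith
    rcases sign_const hD.smooth.continuous (convex_closedBall x (r + ε)).isPreconnected hz0 with h | h
    · refine big_of hK h0 h1 (F := fun s => (1 - t) * ww k G (x + r • s) + t * ww k G' (x + r • s))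
        (hws.continuous.comp haff) (fun s hs => ?_) hv
      rw [hneg (x + r • s) fun z hz => ⟨h z (mem_closedBall_iff_norm.2 (hball s hs z hz)),
        hfar z (hball s hs z hz)⟩]
      norm_num
    · refine small_of hK h0 h1 (F := fun s => (1 - t) * ww k G (x + r • s) + t * ww k G' (x + r • s))
        (hws.continuous.comp haff) (fun s hs => ?_) hv
      rw [hpos (x + r • s) fun z hz => ⟨h z (mem_closedBall_iff_norm.2 (hball s hs z hz)),
        hfar z (hball s hs z hz)⟩]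
      norm_num
  obtain ⟨ν, hν, hν'⟩ := hT _ hm (2 * r + 2 * (η + ε)) (by linarith) hr'
  have hyb : ∀ y, ‖y - x‖ ≤ r → ‖y - m‖ + (η + ε) ≤ 2 * r + 2 * (η + ε) := by
    intro y hy
    have := norm_sub_le_norm_sub_add_norm_sub y x m
    linarith
  refine key_apply (m := m) (c := δ * (2 * r + 2 * (η + ε)) + (η + ε)) hY hM h0 h1 hws
    (fun y => ⟨?_, ?_⟩) hr hν (by positivity) hβ (fun y hy hy' => hneg y fun z hz => ?_)
    (fun y hy hy' => hpos y fun z hz => ?_) hv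
  · have h2 := ww_nonneg k G y
    have h3 := ww_nonneg k G' y
    have h4 : 0 ≤ 1 - t := by linarith
    positivity
  · have h2 := ww_le_one k G y
    have h3 := ww_le_one k G' y
    nlinarith
  · refine ⟨slab_neg hν hν' (hyb y hy) hy' (by linarith), fun m' hm' => ?_⟩
    by_contra hc
    have h5 := norm_sub_le_norm_sub_add_norm_sub m' z y
    rw [norm_sub_rev m' z] at h5
    exact (slab_neg hν hν' (hyb y hy) hy' (z := m') (by linarith)).ne hm'
  · refine ⟨slab_pos hν hν' (hyb y hy) hy' (by linarith), fun m' hm' => ?_⟩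
    by_contra hc
    have h5 := norm_sub_le_norm_sub_add_norm_sub m' z y
    rw [norm_sub_rev m' z] at h5
    exact (slab_pos hν hν' (hyb y hy) hy' (z := m') (by linarith)).ne' hm'

end Pool.Agent.L7h86.RE
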