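import Pool.Agent.L7h86.RE.Asm
import Pool.Agent.L7h89.RE.Bet
import Pool.Agent.L7h89.RE.Key
import Pool.Agent.L7h89.RE.Iso
import Pool.Agent.L7h77.RE.Ker
import Pool.Agent.L7h77.RE.Smv
import Pool.Agent.L7h77.RE.Dom
import Pool.Agent.L7h77.RE.Stp

/-!
# Project RE: the theorem for regions, and the comparison with a round ball (helper86)
-/

set_option autoImplicit false

open Set Filter Topology Metric Function MeasureTheory
open scoped ContDiff RealInnerProductSpace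

noncomputable section

namespace Pool.Agent.L7h86.RE

variable {n : ℕ}

theorem main' (n : ℕ) (hn : 3 ≤ n) (δ η r₀ : ℝ) (hδ : 0 ≤ δ) (hη : 0 ≤ η) (hr₀ : 0 < r₀)
    (hsum : 9 * n * (δ + η) ≤ 1) (g g' : E n → ℝ) (hg : Defines g) (hg' : Defines g')
    (hf : Flat δ r₀ {x | g x = 0}) (hf' : Flat δ r₀ {x | g' x = 0})
    (hcl : ∀ y, (g y ≤ 0 ↔ ¬ g' y ≤ 0) → ∃ m, g m = 0 ∧ ‖y - m‖ ≤ η * r₀) :
    Isotopic {x | g x ≤ 0} {x | g' x ≤ 0} :=
  main Pool.Agent.L7h77.RE.t_KER (Pool.Agent.L7h89.RE.t_KEY Pool.Agent.L7h77.RE.t_KER)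
    (Pool.Agent.L7h77.RE.t_SMV Pool.Agent.L7h77.RE.t_KER) Pool.Agent.L7h77.RE.t_STP
    Pool.Agent.L7h89.RE.t_ISO Pool.Agent.L7h89.RE.t_BET Pool.Agent.L7h77.RE.t_DOM n hn δ η r₀ hδ hη
    hr₀ hsum g g' hg hg' hf hf' hcl

theorem frontier_eq {g : E n → ℝ} (hg : Defines g) : frontier {x | g x ≤ 0} = {x | g x = 0} :=
  (Pool.Agent.L7h77.RE.t_DOM n g hg).1

/-- the defining function of a round ball -/
theorem defines_ball (c : E n) {R : ℝ} (hR : 0 < R) : Defines (fun x : E n => ‖x - c‖ ^ 2 - R ^ 2) := by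
  refine ⟨((contDiff_id.sub contDiff_const).norm_sq ℝ).sub contDiff_const, ?_, ?_⟩
  · have : {x : E n | ‖x - c‖ ^ 2 - R ^ 2 ≤ 0} = closedBall c R := by
      ext x
      rw [mem_ofPred_eq, mem_closedBall_iff_norm, sub_nonpos, sq_le_sq₀ (norm_nonneg _) hR.le]
    rw [this]
    exact isCompact_closedBall _ _
  · intro x hx h
    have h1 : HasFDerivAt (fun x : E n => ‖x - c‖ ^ 2 - R ^ 2)
        (2 • (innerSL ℝ (x - c)).comp (ContinuousLinearMap.id ℝ (E n))) x :=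
      (((hasFDerivAt_id x).sub_const c).norm_sq).sub_const _
    rw [h1.fderiv] at h
    have h2 := congrArg (fun L : E n →L[ℝ] ℝ => L (x - c)) h
    simp only [_root_.smul_apply, ContinuousLinearMap.comp_apply, ContinuousLinearMap.id_apply,
      innerSL_apply_apply, real_inner_self_eq_norm_sq, _root_.zero_apply, nsmul_eq_mul] at h2
    have h3 : ‖x - c‖ ^ 2 = R ^ 2 := by linarith
    rw [h3] at h2
    have : 0 < R ^ 2 := by positivity
    norm_num at h2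
    nlinarith

/-- round spheres are flat at small scales -/
theorem flat_sphere (c : E n) {R δ r₀ : ℝ} (hR : 0 < R) (hr : r₀ ≤ 2 * δ * R) :
    Flat δ r₀ {x : E n | ‖x - c‖ ^ 2 - R ^ 2 = 0} := by
  intro x hx r hr0 hr1
  have hx' : ‖x - c‖ ^ 2 = R ^ 2 := by
    have : ‖x - c‖ ^ 2 - R ^ 2 = 0 := hx
    linarith
  have hxn : ‖x - c‖ = R := by
    rw [← abs_of_nonneg (norm_nonneg (x - c)), ← abs_of_pos hR]
    exact sq_eq_sq_iff_abs_eq_abs _ _ |>.1 hx'
  refine ⟨R⁻¹ • (x - c), ?_, fun y hy hy' => ?_⟩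
  · rw [norm_smul, norm_inv, Real.norm_of_nonneg hR.le, hxn, inv_mul_cancel₀ hR.ne']
  · have hy1 : ‖y - c‖ ^ 2 - R ^ 2 = 0 := hy
    have h1 : ‖y - c‖ ^ 2 = ‖y - x‖ ^ 2 + 2 * ⟪x - c, y - x⟫ + ‖x - c‖ ^ 2 := by
      have : y - c = (y - x) + (x - c) := by abel
      rw [this, norm_add_sq_real, real_inner_comm]
    have h2 : ⟪x - c, y - x⟫ = -(‖y - x‖ ^ 2 / 2) := by linarith
    rw [inner_smul_left, h2]
    simp only [map_inv₀, conj_trivial]
    rw [abs_mul, abs_neg, abs_of_pos (inv_pos.2 hR), abs_of_nonneg (by positivity)]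
    have h3 : ‖y - x‖ ^ 2 ≤ r ^ 2 := pow_le_pow_left₀ (norm_nonneg _) hy' 2
    rw [inv_mul_le_iff₀ hR]
    nlinarith

/-- regions near a round ball -/
theorem near_ball (n : ℕ) (hn : 3 ≤ n) (δ η R : ℝ) (hδ : 0 < δ) (hη : 0 ≤ η) (hR : 0 < R)
    (hsum : 9 * n * (δ + η) ≤ 1) (c : E n) (g : E n → ℝ) (hg : Defines g)
    (hf : Flat δ (2 * δ * R) {x | g x = 0})
    (hin : ∀ y, ‖y - c‖ ≤ R - 2 * δ * η * R → g y ≤ 0)
    (hout : ∀ y, g y ≤ 0 → ‖y - c‖ ≤ R + 2 * δ * η * R) :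
    Isotopic {x | g x ≤ 0} (closedBall c R) := by
  have hn' : (3 : ℝ) ≤ n := by exact_mod_cast hn
  have hδ' : δ ≤ 1 / 27 := by nlinarith
  have hη' : η ≤ 1 / 27 := by nlinarith
  have hball : {x : E n | ‖x - c‖ ^ 2 - R ^ 2 ≤ 0} = closedBall c R := by
    ext x
    rw [mem_ofPred_eq, mem_closedBall_iff_norm, sub_nonpos, sq_le_sq₀ (norm_nonneg _) hR.le]
  rw [← hball]
  refine Isotopic.symm (main' n hn δ η (2 * δ * R) hδ.le hη (by positivity) hsum _ g
    (defines_ball c hR) hg (flat_sphere c hR le_rfl) hf fun y hy => ?_)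
  have hy1 : ‖y - c‖ ≤ R ↔ ¬ g y ≤ 0 := by
    rw [← hy, sub_nonpos, sq_le_sq₀ (norm_nonneg _) hR.le]
  have hdη : 2 * δ * η * R < R := by
    have : 2 * δ * η ≤ 2 * (1 / 27) * (1 / 27) := by
      have h1 : δ * η ≤ (1 / 27) * (1 / 27) := mul_le_mul hδ' hη' hη (by norm_num)
      linarith
    nlinarith
  have habs : |‖y - c‖ - R| ≤ η * (2 * δ * R) := by
    by_cases h : ‖y - c‖ ≤ R
    · have h1 := hy1.1 h
      have h2 : R - 2 * δ * η * R < ‖y - c‖ := by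
        by_contra hc
        exact h1 (hin y (not_lt.1 hc))
      rw [abs_of_nonpos (by linarith)]
      linarith
    · have h1 : g y ≤ 0 := by
        by_contra hc
        exact h (hy1.2 hc)
      have h2 := hout y h1
      rw [abs_of_pos (by linarith)]
      linarith
  have hy0 : 0 < ‖y - c‖ := by
    have := neg_abs_le (‖y - c‖ - R)
    nlinarith
  refine ⟨c + (R / ‖y - c‖) • (y - c), ?_, ?_⟩
  · show ‖c + (R / ‖y - c‖) • (y - c) - c‖ ^ 2 - R ^ 2 = 0
    rw [add_sub_cancel_left, norm_smul, Real.norm_of_nonneg (by positivity), div_mul_cancel₀ _ hy0.ne',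
      sub_self]
  · have e : y - (c + (R / ‖y - c‖) • (y - c)) = (1 - R / ‖y - c‖) • (y - c) := by
      rw [sub_smul, one_smul]
      abel
    rw [e, norm_smul, Real.norm_eq_abs]
    calc |1 - R / ‖y - c‖| * ‖y - c‖ = |(1 - R / ‖y - c‖) * ‖y - c‖| := by
          rw [abs_mul, abs_of_pos hy0]
      _ = |‖y - c‖ - R| := by
          congr 1
          field_simp
      _ ≤ _ := habs

end Pool.Agent.L7h86.RE
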