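import Pool.Agent.L7h86.RE.Stm

/-!
# Project RE: regularity of the levels (helper86)
-/

set_option autoImplicit false

open Set Filter Topology Metric Function MeasureTheory
open scoped ContDiff RealInnerProductSpace

noncomputable section

namespace Pool.Agent.L7h86.RE

variable {n : ℕ}

theorem sign_const {G : E n → ℝ} (hG : Continuous G) {S : Set (E n)} (hS : IsPreconnected S)
    (h : ∀ y ∈ S, G y ≠ 0) : (∀ y ∈ S, G y < 0) ∨ ∀ y ∈ S, 0 < G y := by
  by_contra hc
  push Not at hc
  obtain ⟨⟨a, ha, ha'⟩, b, hb, hb'⟩ := hc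
  have h1 := hS.intermediate_value hb ha hG.continuousOn ⟨hb', ha'⟩
  obtain ⟨c, hc, hc'⟩ := h1
  exact h c hc hc'

/-- a normalized defining function of a region -/
structure Dm (G : E n → ℝ) (ρ R : ℝ) : Prop where
  smooth : ContDiff ℝ ∞ G
  far : ∀ x, R ≤ ‖x‖ → G x = 1
  ρpos : 0 < ρ
  loc : ∀ m, G m = 0 → ∃ N : E n, ∀ y, ‖y - m‖ ≤ ρ → 0 < fderiv ℝ G y N

/-- the smooth version of the indicator function -/
def ww (k : ℝ) (G : E n → ℝ) (y : E n) : ℝ := Real.smoothTransition ((1 - k * G y) / 2)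

theorem ww_nonneg (k : ℝ) (G : E n → ℝ) (y : E n) : 0 ≤ ww k G y := Real.smoothTransition.nonneg _

theorem ww_le_one (k : ℝ) (G : E n → ℝ) (y : E n) : ww k G y ≤ 1 := Real.smoothTransition.le_one _

theorem ww_smooth {k : ℝ} {G : E n → ℝ} (hG : ContDiff ℝ ∞ G) : ContDiff ℝ ∞ (ww k G) :=
  Real.smoothTransition.contDiff.comp ((contDiff_const.sub (contDiff_const.mul hG)).div_const _)

theorem ww_one {k : ℝ} {G : E n → ℝ} {y : E n} (h : k * G y ≤ -1) : ww k G y = 1 :=
  Real.smoothTransition.one_of_one_le (by linarith)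

theorem ww_zero {k : ℝ} {G : E n → ℝ} {y : E n} (h : 1 ≤ k * G y) : ww k G y = 0 :=
  Real.smoothTransition.zero_of_nonpos (by linarith)

theorem ww_neg (hS : S_STP) {k : ℝ} (hk : 0 < k) {G : E n → ℝ} {y : E n} (h : G y < 0) :
    1 / 2 < ww k G y := by
  refine hS.1 _ ?_
  have := mul_neg_of_pos_of_neg hk h
  linarith

theorem ww_pos (hS : S_STP) {k : ℝ} (hk : 0 < k) {G : E n → ℝ} {y : E n} (h : 0 < G y) :
    ww k G y < 1 / 2 := by
  refine hS.2.1 _ ?_
  have := mul_pos hk h
  linarith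

theorem ww_half (hS : S_STP) {k : ℝ} {G : E n → ℝ} {y : E n} (h : G y = 0) :
    ww k G y = 1 / 2 := by
  unfold ww
  rw [h]
  convert hS.2.2.1 using 2
  norm_num

theorem ww_ge_half (hS : S_STP) {k : ℝ} (hk : 0 < k) {G : E n → ℝ} {y : E n} :
    1 / 2 ≤ ww k G y ↔ G y ≤ 0 := by
  constructor
  · intro h
    by_contra hc
    exact absurd (ww_pos hS hk (not_le.1 hc)) (not_lt.2 h)
  · intro h
    rcases h.lt_or_eq with h | h
    · exact (ww_neg hS hk h).le
    · exact (ww_half hS h).ge

theorem ww_fderiv {k : ℝ} {G : E n → ℝ} (hG : ContDiff ℝ ∞ G) (y N : E n) :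
    fderiv ℝ (ww k G) y N =
      -(k / 2 * (deriv Real.smoothTransition ((1 - k * G y) / 2) * fderiv ℝ G y N)) := by
  have h1 : HasFDerivAt G (fderiv ℝ G y) y := (hG.differentiable (by simp) y).hasFDerivAt
  have h2 : HasFDerivAt (fun y => (1 - k * G y) / 2) ((-(k / 2)) • fderiv ℝ G y) y := by
    have h3 := ((h1.const_mul k).const_sub 1).mul_const (1 / 2)
    refine (h3.congr_of_eventuallyEq (Eventually.of_forall fun z => ?_)).congr_fderiv ?_
    · simp only
      ring
    · ext v
      simp only [_root_.smul_apply, smul_eq_mul, _root_.neg_apply]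
      ring
  have h4 : HasDerivAt Real.smoothTransition
      (deriv Real.smoothTransition ((1 - k * G y) / 2)) ((1 - k * G y) / 2) :=
    ((Real.smoothTransition.contDiff (n := 1)).differentiable (by simp) _).hasDerivAt
  have h5 := h4.comp_hasFDerivAt y h2
  have h6 : fderiv ℝ (ww k G) y = _ := h5.fderiv
  rw [h6]
  simp only [_root_.smul_apply, smul_eq_mul]
  ring

/-- integrals of continuous functions with compact support and constant sign -/
theorem integral_pos' {f : E n → ℝ} (hf : Continuous f) (hc : HasCompactSupport f)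
    (h0 : ∀ s, 0 ≤ f s) {s₀ : E n} (hs : f s₀ ≠ 0) : 0 < ∫ s, f s :=
  hf.integral_pos_of_hasCompactSupport_nonneg_nonzero hc h0 hs

section kernel

variable {κ : ℝ}

theorem ph_zero_of (hK : S_KER) (h0 : 0 < κ) (h1 : κ < 1) {s : E n} (hs : 1 ≤ ‖s‖) :
    ph κ s = 0 := by
  obtain ⟨-, k1, k2, -⟩ := hK n κ h0 h1
  by_contra hc
  have : 0 < ph κ s := lt_of_le_of_ne (k1 s).1 (Ne.symm hc)
  have := (k2 s).1 this
  linarith

/-- a function which is larger than one half on the ball has a large mollification -/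
theorem big_of (hK : S_KER) (h0 : 0 < κ) (h1 : κ < 1) {F : E n → ℝ} (hF : Continuous F)
    (h : ∀ s, ‖s‖ < 1 → 1 / 2 < F s) : 2 * ∫ s : E n, ph κ s * F s ≠ ZZ n κ := by
  obtain ⟨k0, k1, k2, k3, k4, -⟩ := hK n κ h0 h1
  have hph : Continuous (ph κ : E n → ℝ) := k0.continuous
  have hz : ph κ (0 : E n) ≠ 0 := ((k2 0).2 (by simp)).ne'
  have e : 2 * (∫ s : E n, ph κ s * F s) - ZZ n κ = ∫ s : E n, ph κ s * (2 * F s - 1) := by
    unfold ZZ
    rw [← integral_const_mul, ← integral_sub]
    · congr 1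
      ext s
      ring
    · exact ((hph.mul hF).integrable_of_hasCompactSupport k3.mul_right).const_mul 2
    · exact hph.integrable_of_hasCompactSupport k3
  have hpos : 0 < ∫ s : E n, ph κ s * (2 * F s - 1) := by
    refine integral_pos' (s₀ := 0) (hph.mul ((continuous_const.mul hF).sub continuous_const))
      k3.mul_right (fun s => ?_) (mul_ne_zero hz ?_)
    · by_cases hs : ‖s‖ < 1
      · exact mul_nonneg (k1 s).1 (by linarith [h s hs])
      · rw [ph_zero_of hK h0 h1 (not_lt.1 hs), zero_mul]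
    · have := h 0 (by simp)
      intro hc
      linarith
  intro hc
  rw [hc, sub_self] at e
  exact hpos.ne e

theorem small_of (hK : S_KER) (h0 : 0 < κ) (h1 : κ < 1) {F : E n → ℝ} (hF : Continuous F)
    (h : ∀ s, ‖s‖ < 1 → F s < 1 / 2) : 2 * ∫ s : E n, ph κ s * F s ≠ ZZ n κ := by
  obtain ⟨k0, k1, k2, k3, k4, -⟩ := hK n κ h0 h1
  have hph : Continuous (ph κ : E n → ℝ) := k0.continuous
  intro hc
  refine big_of hK h0 h1 (F := fun s => 1 - F s) (continuous_const.sub hF)
    (fun s hs => by linarith [h s hs]) ?_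
  have e : (∫ s : E n, ph κ s * (1 - F s)) = ZZ n κ - ∫ s : E n, ph κ s * F s := by
    unfold ZZ
    rw [← integral_sub]
    · congr 1
      ext s
      ring
    · exact hph.integrable_of_hasCompactSupport k3
    · exact (hph.mul hF).integrable_of_hasCompactSupport k3.mul_right
  rw [e]
  linarith

end kernel

/-- **Small scales.** -/
theorem small_scale (hK : S_KER) (hM : S_SMV) (hS : S_STP) {κ : ℝ} (h0 : 0 < κ) (h1 : κ < 1)
    {G : E n → ℝ} {ρ R : ℝ} (hD : Dm G ρ R) {k : ℝ} (hk : 0 < k) {x : E n} {r : ℝ} (hr : 0 ≤ r)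
    (hr' : 2 * r ≤ ρ) (hv : 2 * vv κ (ww k G) (x, r) = ZZ n κ) :
    ∃ ν : E n, fderiv ℝ (fun y => vv κ (ww k G) (y, r)) x ν ≠ 0 := by
  obtain ⟨k0, k1, k2, k3, k4, -⟩ := hK n κ h0 h1
  have hph : Continuous (ph κ : E n → ℝ) := k0.continuous
  have hw := ww_smooth (k := k) hD.smooth
  have haff : Continuous (fun s : E n => x + r • s) :=
    continuous_const.add (continuous_const_smul r)
  -- a zero
  obtain ⟨s₀, hs₀, hG₀⟩ : ∃ s₀ : E n, ‖s₀‖ < 1 ∧ G (x + r • s₀) = 0 := by
    by_contra hc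
    push Not at hc
    rcases sign_const (G := fun s => G (x + r • s)) (hD.smooth.continuous.comp haff)
      (S := ball 0 1) (convex_ball _ _).isPreconnected
      (fun s hs => hc s (mem_ball_zero_iff.1 hs)) with h | h
    · exact big_of hK h0 h1 (F := fun s => ww k G (x + r • s)) (hw.continuous.comp haff)
        (fun s hs => ww_neg hS hk (h s (mem_ball_zero_iff.2 hs))) hv
    · exact small_of hK h0 h1 (F := fun s => ww k G (x + r • s)) (hw.continuous.comp haff)
        (fun s hs => ww_pos hS hk (h s (mem_ball_zero_iff.2 hs))) hv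
  obtain ⟨N, hN⟩ := hD.loc _ hG₀
  refine ⟨N, ?_⟩
  rw [(hM n κ _ h0 h1 hw).2.1]
  have hin : ∀ s : E n, ‖s‖ ≤ 1 → 0 < fderiv ℝ G (x + r • s) N := by
    intro s hs
    refine hN _ ?_
    have : x + r • s - (x + r • s₀) = r • (s - s₀) := by
      rw [smul_sub]
      abel
    rw [this, norm_smul, Real.norm_of_nonneg hr]
    have h2 : ‖s - s₀‖ ≤ 2 := (norm_sub_le _ _).trans (by linarith)
    nlinarith
  have hfc : Continuous (fun s : E n => fderiv ℝ (ww k G) (x + r • s) N) := by
    have h3 : Continuous (fderiv ℝ (ww k G)) := hw.continuous_fderiv (by simp)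
    exact (h3.comp haff).clm_apply continuous_const
  have hneg : 0 < ∫ s : E n, -(ph κ s * fderiv ℝ (ww k G) (x + r • s) N) := by
    refine integral_pos' (s₀ := s₀) (hph.mul hfc).neg k3.mul_right.neg (fun s => ?_) ?_
    · by_cases hs : ‖s‖ < 1
      · rw [ww_fderiv hD.smooth]
        have h4 := (k1 s).1
        have h5 := hS.2.2.2.1 ((1 - k * G (x + r • s)) / 2)
        have h6 := hin s hs.le
        have h7 : 0 ≤ ph κ s * (k / 2 * (deriv Real.smoothTransition ((1 - k * G (x + r • s)) / 2) *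
            fderiv ℝ G (x + r • s) N)) :=
          mul_nonneg h4 (mul_nonneg (by linarith) (mul_nonneg h5 h6.le))
        linarith
      · rw [ph_zero_of hK h0 h1 (not_lt.1 hs)]
        simp
    · rw [ww_fderiv hD.smooth, hG₀]
      have h4 := (k2 s₀).2 hs₀
      have h5 : 0 < deriv Real.smoothTransition ((1 - k * 0) / 2) := by
        have := hS.2.2.2.2
        convert this using 2
        norm_num
      have h6 := hin s₀ hs₀.le
      have h7 : 0 < ph κ s₀ * (k / 2 * (deriv Real.smoothTransition ((1 - k * 0) / 2) *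
          fderiv ℝ G (x + r • s₀) N)) := mul_pos h4 (mul_pos (by linarith) (mul_pos h5 h6))
      intro hc
      linarith
  rw [integral_neg] at hneg
  intro hc
  rw [hc] at hneg
  simp at hneg

end Pool.Agent.L7h86.RE
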