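import Mathlib

/-!
# Project RE: smooth Reifenberg flat hypersurfaces which are close are isotopic (helper86)

Target: MP_6c077c_gt (smooth Schoenflies problem in dimension 4).

THEOREM. Let `W`, `W'` be compact regions with smooth boundary in `ℝⁿ`, `n ≥ 3`, whose boundaries are `δ`-flat up
to the scale `r₀` (`S ∩ B(x, r)` lies between two parallel hyperplanes at distance `δ r` from `x`, for all `x ∈ S`,
`r ≤ r₀`: Reifenberg's condition, Jones' beta numbers) and such that `W` and `W'` differ only in the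
`η r₀`-neighbourhood of the boundary of `W`. If `9 n (δ + η) ≤ 1` (for `n = 4`: `δ + η ≤ 1/36`) then there is a smooth
ambient isotopy with compact support which carries `W` to `W'`.

PROOF. Let `v(x, r) = ∫ φ(s) w(x + r s) ds` be the mollifications of (a smooth version `w` of) the indicator function
of `W`, `φ` a fixed radial kernel. The claim is that `{v(·, r) = 1/2 ∫ φ}` is a regular level for all `r` from `0` to
about `r₀ / 2`: this gives an isotopy from `∂W` to this level set (S_ISO). At a scale `r` at which `W` is almost a half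
space the derivative in the direction of the normal is not zero by S_KEY. At the last scale the functions of `W`
and `W'` are joined by a segment.

This file: definitions and the statements of the independent parts. Please write `theorem t_X : S_X` (earlier
statements may be used as hypotheses, e.g. `t_KEY : S_KER → S_KEY`) in `Pool/Agent/L7hNN/RE/<X>.lean`.
-/

set_option autoImplicit false

open Set Filter Topology Metric Function MeasureTheory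
open scoped ContDiff RealInnerProductSpace

noncomputable section

namespace Pool.Agent.L7h86.RE

/-- `ℝⁿ` -/
abbrev E (n : ℕ) : Type := EuclideanSpace ℝ (Fin n)

/-- `S` is `δ`-flat up to the scale `r₀` -/
def Flat {n : ℕ} (δ r₀ : ℝ) (S : Set (E n)) : Prop :=
  ∀ x ∈ S, ∀ r : ℝ, 0 < r → r ≤ r₀ → ∃ ν : E n, ‖ν‖ = 1 ∧ ∀ y ∈ S, ‖y - x‖ ≤ r → |⟪ν, y - x⟫| ≤ δ * r

/-- `g` defines a compact region `{g ≤ 0}` with smooth boundary -/
def Defines {n : ℕ} (g : E n → ℝ) : Prop :=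
  ContDiff ℝ ∞ g ∧ IsCompact {x | g x ≤ 0} ∧ ∀ x, g x = 0 → fderiv ℝ g x ≠ 0

/-- smooth ambient isotopy with compact support which carries `W` to `W'` -/
def Isotopic {n : ℕ} (W W' : Set (E n)) : Prop :=
  ∃ Φ Ψ : ℝ × E n → E n, ContDiff ℝ ∞ Φ ∧ ContDiff ℝ ∞ Ψ ∧ (∀ t x, Ψ (t, Φ (t, x)) = x) ∧
    (∀ t x, Φ (t, Ψ (t, x)) = x) ∧ (∀ x, Φ (0, x) = x) ∧ (∃ R : ℝ, ∀ t x, R ≤ ‖x‖ → Φ (t, x) = x) ∧
    (fun x => Φ (1, x)) '' W = W'

/-- the profile of the kernel: one for `t ≤ 1 - κ`, zero for `t ≥ 1` -/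
def th (κ t : ℝ) : ℝ := Real.smoothTransition ((1 - t) / κ)

/-- the kernel -/
def ph {n : ℕ} (κ : ℝ) (s : E n) : ℝ := th κ (‖s‖ ^ 2)

/-- the weight with `- ∂_ν ph = ⟪ν, s⟫ gg` -/
def gg {n : ℕ} (κ : ℝ) (s : E n) : ℝ := -2 * deriv (th κ) (‖s‖ ^ 2)

/-- the integral of the kernel -/
def ZZ (n : ℕ) (κ : ℝ) : ℝ := ∫ s : E n, ph κ s

/-- the mollification of `w` at the point `q.1` and at the scale `q.2` -/
def vv {n : ℕ} (κ : ℝ) (w : E n → ℝ) (q : E n × ℝ) : ℝ := ∫ s : E n, ph κ s * w (q.1 + q.2 • s)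

/-- **[KER]** (70 lines) Facts on the kernel. `Real.smoothTransition` is smooth and monotone, so `th κ` is smooth
and antitone, `deriv (th κ) ≤ 0`, it vanishes outside `[1 - κ, 1]` (locally constant outside, and by continuity of
the derivative at the ends). `∫ ⟪ν, s⟫² gg = ZZ`: integration by parts of `ph` against the linear function
`s ↦ ⟪ν, s⟫` (`integral_mul_fderiv_eq_neg_fderiv_mul_of_integrable`; the derivative of `⟪ν, ·⟫` in the direction `ν`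
is one). `∫ ⟪ν, s⟫ gg = 0`: substitution `s ↦ -s`. The last one: `(1 - κ) gg ≤ ‖s‖² gg = ∑ i, ⟪e_i, s⟫² gg`. -/
def S_KER : Prop :=
  ∀ (n : ℕ) (κ : ℝ), 0 < κ → κ < 1 →
    ContDiff ℝ ∞ (ph κ : E n → ℝ) ∧ (∀ s : E n, 0 ≤ ph κ s ∧ ph κ s ≤ 1) ∧
    (∀ s : E n, 0 < ph κ s ↔ ‖s‖ < 1) ∧ HasCompactSupport (ph κ : E n → ℝ) ∧ 0 < ZZ n κ ∧
    Continuous (gg κ : E n → ℝ) ∧ HasCompactSupport (gg κ : E n → ℝ) ∧ (∀ s : E n, 0 ≤ gg κ s) ∧
    (∀ s : E n, gg κ s ≠ 0 → 1 - κ ≤ ‖s‖ ^ 2 ∧ ‖s‖ ≤ 1) ∧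
    (∀ s ν : E n, fderiv ℝ (ph κ) s ν = -(⟪ν, s⟫ * gg κ s)) ∧
    (∀ ν : E n, ‖ν‖ = 1 → ∫ s : E n, ⟪ν, s⟫ ^ 2 * gg κ s = ZZ n κ) ∧
    (∀ ν : E n, ∫ s : E n, ⟪ν, s⟫ * gg κ s = 0) ∧
    (1 - κ) * ∫ s : E n, gg κ s ≤ n * ZZ n κ

/-- **[KEY]** (80 lines, from S_KER) The key inequality. Step 1: `|a| ≤ β`. If `a > β` then `F ph` vanishes for
`⟪ν, s⟫ ≥ -c`, `c = a - β > 0`, so `∫ ph F ≤ ∫_{⟪ν, s⟫ < -c} ph = ∫_{⟪ν, s⟫ > c} ph` and
`ZZ = 2 ∫ ph F ≤ ZZ - ∫_{|⟪ν, s⟫| ≤ c} ph < ZZ` (`ph > 0` near `0`), a contradiction; the case `a < -β` follows by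
applying this to `s ↦ 1 - F (-s)` (or directly). Step 2: for `‖s‖ ≤ 1` the pointwise inequality
`F s ⟪ν, s⟫ ≤ (⟪ν, s⟫ - |⟪ν, s⟫|) / 2 + 2 β` (cases `⟪ν, s⟫ ≤ -2β`: `F = 1`; `≥ 2β`: `F = 0`; otherwise clear). Multiply
by `gg ≥ 0` and integrate: `∫ F ⟪ν, s⟫ gg ≤ -1/2 ∫ |⟪ν, s⟫| gg + 2 β ∫ gg ≤ -1/2 ZZ + 2 β n ZZ / (1 - κ) < 0`,
because `|⟪ν, s⟫| ≥ ⟪ν, s⟫²` for `‖s‖ ≤ 1`. -/
def S_KEY : Prop :=
  ∀ (n : ℕ) (κ β a : ℝ) (ν : E n) (F : E n → ℝ), 0 < κ → κ < 1 → ‖ν‖ = 1 → 0 ≤ β →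
    4 * n * β < 1 - κ → Continuous F → (∀ s, 0 ≤ F s ∧ F s ≤ 1) →
    (∀ s, ‖s‖ ≤ 1 → ⟪ν, s⟫ ≤ -a - β → F s = 1) → (∀ s, ‖s‖ ≤ 1 → -a + β ≤ ⟪ν, s⟫ → F s = 0) →
    2 * ∫ s : E n, ph κ s * F s = ZZ n κ → ∫ s : E n, F s * (⟪ν, s⟫ * gg κ s) < 0

/-- **[SMV]** (80 lines, from S_KER) Smoothness of the mollification in both variables and its derivative. Smooth:
`contDiffOn_convolution_right_with_param` (write `vv κ w q = (ph κ ⋆ g q) 0` with
`g q y = χ y * w (q.1 - q.2 • y)`, `χ` a bump function equal to one on the unit ball), or any lemma on parametric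
integrals. Derivative: differentiate under the integral (`hasFDerivAt_integral_of_dominated_of_fderiv_le`, or by
the same convolution lemma). Last formula: integration by parts
(`integral_mul_fderiv_eq_neg_fderiv_mul_of_integrable`), as the derivative of `s ↦ w (x + r s)` in the direction `ν`
is `r * fderiv w (x + r s) ν`, and `fderiv (ph κ) s ν = -⟪ν, s⟫ gg`. -/
def S_SMV : Prop :=
  ∀ (n : ℕ) (κ : ℝ) (w : E n → ℝ), 0 < κ → κ < 1 → ContDiff ℝ ∞ w →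
    ContDiff ℝ ∞ (vv κ w) ∧
    (∀ (x ν : E n) (r : ℝ), fderiv ℝ (fun y => vv κ w (y, r)) x ν =
      ∫ s : E n, ph κ s * fderiv ℝ w (x + r • s) ν) ∧
    ∀ (x ν : E n) (r : ℝ), r * fderiv ℝ (fun y => vv κ w (y, r)) x ν =
      ∫ s : E n, w (x + r • s) * (⟪ν, s⟫ * gg κ s)

/-- **[ISO]** (130 lines) Regular level sets move by an ambient isotopy. Let
`O = {(x, t) | fderiv_x V ≠ 0}` (open) and let `Z` be the compact set of the zeros of `V` with `0 ≤ t ≤ 1`, `Z ⊆ O`. Let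
`χ` be smooth with compact support in `O` and `χ = 1` near `Z` (`exists_contDiff_tsupport_subset` or
`exists_contMDiff...`), `X = -χ (∂_t V) ∇_x V / ‖∇_x V‖²` (smooth, compact support), and let `Φ_t` be the flow of
the field `(X, 1)` on `E n × ℝ` from the time `0` to `t` (`Pool.Agent.GR.Flow.exists_solution`, `contDiff_flow`: they
need only a bounded Lipschitz field; compare `Pool.Agent.H864R3.flow_cpt`; the inverse is the flow backwards).
Along a flow line `f(t) = V(Φ_t x, t)` has `f' = 0` near every zero of `f` in `[0, 1]`; so the zeros form an open and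
closed subset of `[0, 1]`, and `0 ≤ f 0 ↔ 0 ≤ f 1`. -/
def S_ISO : Prop :=
  ∀ (n : ℕ) (V : E n × ℝ → ℝ) (R : ℝ), ContDiff ℝ ∞ V →
    (∀ x t, 0 ≤ t → t ≤ 1 → V (x, t) = 0 → ‖x‖ ≤ R ∧ ∃ ν : E n, fderiv ℝ (fun y => V (y, t)) x ν ≠ 0) →
    Isotopic {x | 0 ≤ V (x, 0)} {x | 0 ≤ V (x, 1)}

/-- **[BET]** (100 lines) Flatness of the boundary implies that the two sides of the slab are on different sides of
the boundary. Fix `x` with `g x = 0`. Say that `Q(r, c)` holds if for some unit vector `ν'`: `g < 0` on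
`{‖y - x‖ ≤ r, ⟪ν', y - x⟫ < -c r}` and `g > 0` on `{‖y - x‖ ≤ r, ⟪ν', y - x⟫ > c r}`. (1) `Q(r, 1/16)` for all small `r`
(`ν'` the normalized gradient). (2) If `Q(r', c)`, `c ≤ 1/16`, `r/2 ≤ r' ≤ r ≤ r₀` then `Q(r, δ)`: let `ν` be as in
`Flat` for the scale `r`. The sets `L = {‖y - x‖ ≤ r, ⟪ν, y - x⟫ < -δ r}` and `U` (`> δ r`) are convex and contain no
zeros of `g`, so `g` has a constant sign on each of them. There is a unit vector `u` with `⟪ν', u⟫ > 1/16`,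
`|⟪ν, u⟫| > 1/8`: `u = ν'` if `|⟪ν, ν'⟫| > 1/8`, otherwise `u = (ν + ν') / ‖ν + ν'‖`. The points `x + r' u` (where `g > 0`)
and `x - r' u` (where `g < 0`) lie in different ones of the sets `L`, `U`. Replace `ν` by `-ν` if necessary. (3) Induction:
`Q(r, δ)` or `Q(r, 1/16)` for `r ≤ r_x`, then for `r ≤ 2 r_x`, `4 r_x`, … -/
def S_BET : Prop :=
  ∀ (n : ℕ) (g : E n → ℝ) (δ r₀ : ℝ), Defines g → 0 ≤ δ → δ ≤ 1 / 16 → Flat δ r₀ {x | g x = 0} →
    ∀ x, g x = 0 → ∀ r : ℝ, 0 < r → r ≤ r₀ → ∃ ν : E n, ‖ν‖ = 1 ∧ ∀ y, ‖y - x‖ ≤ r →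
      (⟪ν, y - x⟫ < -(δ * r) → g y < 0) ∧ (δ * r < ⟪ν, y - x⟫ → 0 < g y)

/-- **[DOM]** (100 lines) `frontier {g ≤ 0} = {g = 0}`; and the defining function may be changed outside of a
neighbourhood of the region: `G = χ g + (1 - χ)` with a bump function `χ` equal to one near the compact region.
The number `ρ`: the function `(m, y) ↦ fderiv G y (∇G m)` is continuous and positive on the compact diagonal of
`{G = 0}`. The number `k`: `|G|` has a positive minimum on the compact set of the `y` with `‖y‖ ≤ R` and distance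
`≥ ε` from `{G = 0}`. -/
def S_DOM : Prop :=
  ∀ (n : ℕ) (g : E n → ℝ), Defines g →
    frontier {x | g x ≤ 0} = {x | g x = 0} ∧
    ∃ G : E n → ℝ, ContDiff ℝ ∞ G ∧ (∃ R : ℝ, ∀ x, R ≤ ‖x‖ → G x = 1) ∧
      (∀ x, (G x < 0 ↔ g x < 0) ∧ (G x = 0 ↔ g x = 0)) ∧
      (∃ ρ : ℝ, 0 < ρ ∧ ∀ m, G m = 0 → ∃ N : E n, ∀ y, ‖y - m‖ ≤ ρ → 0 < fderiv ℝ G y N) ∧
      ∀ ε : ℝ, 0 < ε → ∃ k : ℝ, 0 < k ∧ ∀ y, (∀ m, G m = 0 → ε ≤ ‖y - m‖) → 1 ≤ k * |G y|

/-- **[STP]** (30 lines) Facts on the smooth step function `Real.smoothTransition`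
(`= f x / (f x + f (1 - x))`, `f = expNegInvGlue`, `f` strictly increasing on `[0, ∞)`, `f' (1/2) > 0`). -/
def S_STP : Prop :=
  (∀ x : ℝ, 1 / 2 < x → 1 / 2 < Real.smoothTransition x) ∧
    (∀ x : ℝ, x < 1 / 2 → Real.smoothTransition x < 1 / 2) ∧ Real.smoothTransition (1 / 2) = 1 / 2 ∧
    (∀ x : ℝ, 0 ≤ deriv Real.smoothTransition x) ∧ 0 < deriv Real.smoothTransition (1 / 2)

end Pool.Agent.L7h86.RE
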